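import Mathlib
import Pool.Agent.Helper54.TotAsymp
import Pool.Agent.TOS.Final
import Pool.Agent.TOS.Dyadic

/-!
# The primes `p` with `A_p ≠ {p, 2p}` are very sparse

For every `ε > 0` at most `C x / (log x) ^ (2 - ε)` primes `p ≤ x` are exceptional, and the sum of
the reciprocals of all exceptional primes converges.
-/

set_option autoImplicit false

namespace Pool.Agent.Results.MP_a02e6b_nt.ThinExceptions

open Filter Pool.Agent.Helper54

noncomputable section

/-- The map `n ↦ φ(n) + 1`. -/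
def f (n : ℕ) : ℕ := n.totient + 1

/-- The set `A_p` of positive integers whose orbit under `f` reaches `p`. -/
def A (p : ℕ) : Set ℕ := {n | 1 ≤ n ∧ ∃ i : ℕ, f^[i] n = p}

/-- The number of elements of `S` in `[1, x]`. -/
def count (S : Set ℕ) (x : ℕ) : ℕ := (S ∩ Set.Icc 1 x).ncard

/-- `S` has natural density `d`. -/
def HasNaturalDensity (S : Set ℕ) (d : ℝ) : Prop :=
  Tendsto (fun x : ℕ => (count S x : ℝ) / x) atTop (nhds d)

/-- The primes `p` with `A_p = {p, 2p}`, of natural density zero. -/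
def Good : Set ℕ := {p | p.Prime ∧ A p = {p, 2 * p} ∧ HasNaturalDensity (A p) 0}

/-- All other primes. -/
def Bad : Set ℕ := {p | p.Prime ∧ p ∉ Good}

theorem density_pair (p : ℕ) : HasNaturalDensity {p, 2 * p} 0 := by
  have h1 : ∀ x : ℕ, (count {p, 2 * p} x : ℝ) ≤ 2 := by
    intro x
    have h3 : count {p, 2 * p} x ≤ ({p, 2 * p} : Set ℕ).ncard :=
      Set.ncard_le_ncard Set.inter_subset_left (Set.toFinite _)
    have h2 : ({p, 2 * p} : Set ℕ).ncard ≤ 2 := by
      have := Set.ncard_insert_le p {2 * p}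
      rw [Set.ncard_singleton] at this
      exact this
    exact_mod_cast h3.trans h2
  have h2 : Tendsto (fun x : ℕ => (2 : ℝ) / x) atTop (nhds 0) :=
    tendsto_const_nhds.div_atTop tendsto_natCast_atTop_atTop
  refine squeeze_zero (fun x => by positivity) (fun x => ?_) h2
  exact div_le_div_of_nonneg_right (h1 x) (by positivity)

theorem bad_le (x : ℕ) : count Bad x ≤ (Tot.exc x).card + 1 := by
  classical
  have hsub : Bad ∩ Set.Icc 1 x ⊆ (((Tot.exc x ∪ {2} : Finset ℕ)) : Set ℕ) := by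
    rintro p ⟨⟨hp, hpG⟩, hpx⟩
    rw [Finset.mem_coe, Finset.mem_union, Finset.mem_singleton]
    by_cases hex : p ∈ Tot.exc x
    · exact Or.inl hex
    by_cases hp2 : p = 2
    · exact Or.inr hp2
    exfalso
    have hA : A p = {p, 2 * p} := by
      refine Tot.A_eq_of_forall hp hp2 fun q hq => ?_
      by_contra hcon
      push Not at hcon
      exact hex (Tot.mem_exc.2 ⟨⟨hpx.2, hp⟩, q, hq, hcon.1, hcon.2⟩)
    refine hpG ⟨hp, hA, ?_⟩
    rw [hA]
    exact density_pair p
  unfold count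
  refine (Set.ncard_le_ncard hsub (Finset.finite_toSet _)).trans ?_
  rw [Set.ncard_coe_finset]
  refine (Finset.card_union_le _ _).trans ?_
  simp

theorem count_le (S : Set ℕ) (x : ℕ) : count S x ≤ x := by
  unfold count
  calc (S ∩ Set.Icc 1 x).ncard ≤ (Set.Icc 1 x).ncard :=
        Set.ncard_le_ncard Set.inter_subset_right (Set.finite_Icc 1 x)
    _ = x := by
        rw [← Nat.card_coe_set_eq]
        simp

theorem log_ge_one {x : ℕ} (hx : 3 ≤ x) : 1 ≤ Real.log x := by
  have h1 : (3 : ℝ) ≤ x := by exact_mod_cast hx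
  rw [Real.le_log_iff_exp_le (by linarith)]
  have := Real.exp_one_lt_d9
  linarith

theorem one_le_four {x : ℕ} (hx : 3 ≤ x) (ε : ℝ) (hε : 0 < ε) :
    1 ≤ 4 * (x * Real.log x ^ (ε - 2)) := by
  have h1 := log_ge_one hx
  have hx0 : (0 : ℝ) < x := by
    have : (3 : ℝ) ≤ x := by exact_mod_cast hx
    linarith
  have h2 : Real.log x ≤ 2 * Real.sqrt x := by
    have h3 := Real.log_le_sub_one_of_pos (Real.sqrt_pos.2 hx0)
    rw [Real.log_sqrt hx0.le] at h3
    linarith
  have h4 : (Real.log x : ℝ) ^ 2 ≤ 4 * (x : ℝ) := by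
    calc Real.log x ^ 2 ≤ (2 * Real.sqrt x) ^ 2 := by gcongr
      _ = 4 * (x : ℝ) := by
        rw [mul_pow, Real.sq_sqrt hx0.le]
        ring
  have h5 : Real.log x ^ (-2 : ℝ) ≤ Real.log x ^ (ε - 2) :=
    Real.rpow_le_rpow_of_exponent_le h1 (by linarith)
  have h6 : Real.log x ^ (-2 : ℝ) = (Real.log x ^ 2)⁻¹ := by
    rw [Real.rpow_neg (by linarith)]
    norm_num
  have h7 : 0 < Real.log x ^ 2 := by positivity
  calc (1 : ℝ) = Real.log x ^ 2 * (Real.log x ^ 2)⁻¹ := (mul_inv_cancel₀ h7.ne').symm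
    _ ≤ 4 * x * (Real.log x ^ 2)⁻¹ := by gcongr
    _ = 4 * x * Real.log x ^ (-2 : ℝ) := by rw [h6]
    _ ≤ 4 * x * Real.log x ^ (ε - 2) := by gcongr
    _ = _ := by ring

theorem bad_count (ε : ℝ) (hε : 0 < ε) : ∃ C : ℝ, ∀ x : ℕ, 3 ≤ x →
    (count Bad x : ℝ) ≤ C * (x / Real.log x ^ (2 - ε)) := by
  obtain ⟨C, hC, h⟩ := Pool.Agent.TOS.exc_le_log ε hε
  obtain ⟨N, hN⟩ := eventually_atTop.1 h
  refine ⟨C + 4 + 4 * N, fun x hx => ?_⟩
  have h1 := log_ge_one hx
  have h2 : (x : ℝ) / Real.log x ^ (2 - ε) = x * Real.log x ^ (ε - 2) := by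
    rw [show ε - 2 = -(2 - ε) by ring, Real.rpow_neg (by linarith)]
    rfl
  rw [h2]
  have h3 := one_le_four hx ε hε
  set T : ℝ := x * Real.log x ^ (ε - 2) with hT
  have hT0 : 0 ≤ T := by
    have : 0 ≤ Real.log x := by linarith
    positivity
  by_cases hxN : N ≤ x
  · have h4 : (count Bad x : ℝ) ≤ ((Tot.exc x).card : ℝ) + 1 := by exact_mod_cast bad_le x
    have h5 := hN x hxN
    have h6 : 0 ≤ 4 * (N : ℝ) * T := by positivity
    calc (count Bad x : ℝ) ≤ ((Tot.exc x).card : ℝ) + 1 := h4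
      _ ≤ C * T + 4 * T := add_le_add h5 h3
      _ ≤ (C + 4 + 4 * N) * T := by linarith
  · have h4 : (count Bad x : ℝ) ≤ N := by
      have h5 := count_le Bad x
      exact_mod_cast h5.trans (not_le.1 hxN).le
    have h6 : (N : ℝ) * 1 ≤ N * (4 * T) := by gcongr
    have h7 : 0 ≤ (C + 4) * T := by positivity
    calc (count Bad x : ℝ) ≤ N := h4
      _ ≤ (C + 4 + 4 * N) * T := by linarith

theorem primes_count (x : ℕ) : count {p | p.Prime} x = (Nat.primesLE x).card := by
  unfold count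
  rw [← Set.ncard_coe_finset]
  congr 1
  ext p
  simp only [Set.mem_inter_iff, Set.mem_ofPred_eq, Set.mem_Icc, Finset.mem_coe,
    Nat.mem_primesLE]
  constructor
  · rintro ⟨h3, _, h2⟩
    exact ⟨h2, h3⟩
  · rintro ⟨h2, h3⟩
    exact ⟨h3, h3.pos, h2⟩

theorem good_add_bad (x : ℕ) : count {p | p.Prime} x = count Good x + count Bad x := by
  unfold count
  rw [← Set.ncard_union_eq]
  · congr 1
    ext p
    simp only [Set.mem_inter_iff, Set.mem_union, Set.mem_ofPred_eq]
    constructor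
    · rintro ⟨h1, h2⟩
      by_cases h3 : p ∈ Good
      · exact Or.inl ⟨h3, h2⟩
      · exact Or.inr ⟨⟨h1, h3⟩, h2⟩
    · rintro (⟨h1, h2⟩ | ⟨h1, h2⟩)
      · exact ⟨h1.1, h2⟩
      · exact ⟨h1.1, h2⟩
  · rw [Set.disjoint_left]
    rintro p ⟨h1, _⟩ ⟨h2, _⟩
    exact h2.2 h1

theorem density_one : Tendsto (fun x : ℕ => (count Good x : ℝ) / (count {p | p.Prime} x : ℝ))
    atTop (nhds 1) := by
  obtain ⟨C, hC⟩ := bad_count (1 / 2) (by norm_num)
  have h1 : Tendsto (fun x : ℕ => (count Bad x : ℝ) / (count {p | p.Prime} x : ℝ)) atTop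
      (nhds 0) := by
    have h2 : Tendsto (fun x : ℕ => 2 * |C| * (Real.log x ^ (-(1 / 2) : ℝ))) atTop (nhds 0) := by
      have := ((tendsto_rpow_neg_atTop (y := 1 / 2) (by norm_num)).comp
        Tot.tendsto_log_nat).const_mul (2 * |C|)
      rw [mul_zero] at this
      exact this
    refine squeeze_zero' (Eventually.of_forall fun x => by positivity) ?_ h2
    filter_upwards [Tot.eventually_pi_ge, eventually_ge_atTop 3] with x h3 h4
    have h5 := log_ge_one h4
    have hx0 : (0 : ℝ) < x := by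
      have : (3 : ℝ) ≤ x := by exact_mod_cast h4
      linarith
    have hL0 : 0 < Real.log x := by linarith
    rw [primes_count]
    have h6 : 0 < (x : ℝ) / Real.log x := by positivity
    have h7 : 0 < ((Nat.primesLE x).card : ℝ) := by linarith
    rw [div_le_iff₀ h7]
    have h8 : (count Bad x : ℝ) ≤ |C| * (x / Real.log x ^ (2 - 1 / 2 : ℝ)) := by
      refine (hC x h4).trans ?_
      apply mul_le_mul_of_nonneg_right (le_abs_self C)
      positivity
    have h9 : (x : ℝ) / Real.log x ^ (2 - 1 / 2 : ℝ) =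
        Real.log x ^ (-(1 / 2) : ℝ) * (x / Real.log x) := by
      have h10 : Real.log x ^ (2 - 1 / 2 : ℝ) = Real.log x ^ (1 / 2 : ℝ) * Real.log x := by
        rw [show (2 - 1 / 2 : ℝ) = 1 / 2 + 1 by norm_num, Real.rpow_add hL0, Real.rpow_one]
      rw [h10, Real.rpow_neg hL0.le]
      have : 0 < Real.log x ^ (1 / 2 : ℝ) := by positivity
      field_simp
    rw [h9] at h8
    calc (count Bad x : ℝ) ≤ |C| * (Real.log x ^ (-(1 / 2) : ℝ) * (x / Real.log x)) := h8
      _ ≤ |C| * (Real.log x ^ (-(1 / 2) : ℝ) * (2 * ((Nat.primesLE x).card : ℝ))) := by gcongr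
      _ = _ := by ring
  have h2 : Tendsto (fun x : ℕ => 1 - (count Bad x : ℝ) / (count {p | p.Prime} x : ℝ)) atTop
      (nhds 1) := by
    have := h1.const_sub 1
    rwa [sub_zero] at this
  refine h2.congr' ?_
  filter_upwards [eventually_ge_atTop 2] with x hx
  have h3 : (0 : ℝ) < (count {p | p.Prime} x : ℝ) := by
    rw [primes_count]
    have : 0 < (Nat.primesLE x).card :=
      Finset.card_pos.2 ⟨2, Nat.mem_primesLE.2 ⟨hx, Nat.prime_two⟩⟩
    exact_mod_cast this
  have h4 : (count {p | p.Prime} x : ℝ) = count Good x + count Bad x := by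
    exact_mod_cast good_add_bad x
  rw [eq_div_iff h3.ne', sub_mul, one_mul, div_mul_cancel₀ _ h3.ne']
  linarith

/-- For every `ε > 0` there is `C` such that for all `x ≥ 3` at most `C x / (log x) ^ (2 - ε)` primes
`p ≤ x` do not satisfy (`A_p = {p, 2p}`, and `A_p` has natural density `0`); the sum of the
reciprocals of all these exceptional primes converges; and the other primes have relative
density one among the primes. -/
theorem result :
    (∀ ε : ℝ, 0 < ε → ∃ C : ℝ, ∀ x : ℕ, 3 ≤ x →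
      (count Bad x : ℝ) ≤ C * (x / Real.log x ^ (2 - ε))) ∧
    Summable (fun p : Bad => 1 / ((p : ℕ) : ℝ)) ∧
    Tendsto (fun x : ℕ => (count Good x : ℝ) / (count {p | p.Prime} x : ℝ)) atTop (nhds 1) := by
  refine ⟨bad_count, ?_, density_one⟩
  obtain ⟨C, hC⟩ := bad_count (1 / 2) (by norm_num)
  have h1 := Pool.Agent.TOS.summable_of_count Bad C (fun x hx => by
    have := hC x hx
    rw [show (2 - 1 / 2 : ℝ) = 3 / 2 by norm_num] at this
    exact this)
  exact (summable_subtype_iff_indicator (f := fun n : ℕ => 1 / (n : ℝ))).2 h1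

end

end Pool.Agent.Results.MP_a02e6b_nt.ThinExceptions
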